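import Pool.Agent.Helper13_CBG.PUA
import Pool.Agent.Helper16_CBG.HCT
import Pool.Agent.Helper16_CBG.TOP
import Pool.Agent.Helper19_CBG.PAR
import Pool.Agent.Helper23_CBG.JET
import Pool.Agent.Helper24_CBG.MU0
import Pool.Agent.Helper25_CBG.QLO
import Pool.Agent.Helper26_CBG.UNI
import Pool.Agent.Helper27_CBG.INV
import Pool.Agent.Helper30_CBG.CAV
import Pool.Agent.Helper34_CBG.EXP
import Pool.Agent.Helper50_CBG.SBD
import Pool.Agent.Helper51_CBG.QAV
import Pool.Agent.Helper52_CBG.PSI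
import Pool.Agent.Helper53_CBG.BRG
import Pool.Agent.Helper58_CBG.VFX
import Pool.Agent.Helper59_CBG.CLO
import Pool.Agent.Helper62_CBG.DTX
import Pool.Agent.Helper65_CBG.MAX
import Pool.Agent.Helper69_CBG.CNF
import Pool.Agent.Helper74_CBG.CHX
import Pool.Agent.Helper77_CBG.GRM
import Pool.Agent.Helper7_CBG.PUS
import Pool.Agent.Helper81_CBG.QGL
import Pool.Agent.Helper81_CBG.SYM
import Pool.Agent.Helper88_CBG.SOC
import Pool.Agent.Helper95_CBG.KER
import Pool.Agent.Helper97_CBG.GSO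
import Pool.Agent.Helper98_CBG.BAS
import Pool.Agent.Helper98_CBG.CGL

set_option autoImplicit false

namespace Pool.Agent.CBG.H87

open Pool.Agent.CBG

theorem chx : ChxStmt := Pool.Agent.CBG.H74.chx

theorem ker : KerStmt := Pool.Agent.CBG.H95.ker

theorem grm : GrmStmt := Pool.Agent.CBG.H77.grm

theorem gso : GsoStmt := Pool.Agent.CBG.H97.gso

theorem soc : SocStmt := Pool.Agent.CBG.H88.soc

theorem inv : InvStmt := Pool.Agent.CBG.H27.inv

theorem sym : SymStmt := Pool.Agent.CBG.H81.sym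

theorem brg : BrgStmt := Pool.Agent.CBG.H53.brg chx ker grm soc inv sym

theorem cnf : CnfStmt := Pool.Agent.CBG.H69.cnf chx sym

theorem bas : BasStmt := Pool.Agent.CBG.H98.bas sym

theorem jet : JetStmt := Pool.Agent.CBG.H23.jet

theorem sbd : SbdStmt := Pool.Agent.CBG.H50.sbd chx

theorem mu0 : Mu0Stmt := Pool.Agent.CBG.H24.mu0

theorem par : ParStmt := Pool.Agent.CBG.H19.par

theorem uni : UniStmt := Pool.Agent.CBG.H26.uni mu0

theorem cav : CavStmt := Pool.Agent.CBG.H30.cav mu0 par uni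

theorem clo : CloStmt := Pool.Agent.CBG.H59.clo chx brg cnf mu0 cav

theorem qav : QavStmt := Pool.Agent.CBG.H51.qav mu0 par uni

theorem qlo : QloStmt := Pool.Agent.CBG.H25.qlo chx grm gso sym brg bas jet sbd mu0 uni qav

theorem pua : PuaStmt := Pool.Agent.CBG.H13.pua

theorem pus : PusStmt := Pool.Agent.CBG.H7.pus

theorem vfx : VfxStmt := Pool.Agent.CBG.H58.vfx

theorem psi : PsiStmt := Pool.Agent.CBG.H52.psi vfx

theorem hct : HctStmt := Pool.Agent.CBG.H16.hct pua pus

theorem dtx : DtxStmt := Pool.Agent.CBG.H62.dtx pua pus vfx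

theorem max : MaxStmt := Pool.Agent.CBG.H65.max mu0 vfx hct

theorem cgl : CglStmt := Pool.Agent.CBG.H98.cgl clo pua vfx psi dtx max

theorem qgl : QglStmt := Pool.Agent.CBG.H81.qgl qlo pua vfx psi dtx max

theorem exp : ExpStmt := Pool.Agent.CBG.H34.exp

theorem top : TopStmt := Pool.Agent.CBG.H16.top cgl qgl exp

end Pool.Agent.CBG.H87
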