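import Pool.Agent.Helper87_CBG.Fin
import Pool.Agent.CBG.Thin

/-!
# Squad CBG: the thin definitions imply the working definitions
-/

set_option autoImplicit false
set_option maxSynthPendingDepth 3

open scoped Manifold ContDiff Topology
open Filter

namespace Pool.Agent.CBG.H87

open Pool.Agent.CBG Pool.Agent.CBG.Thin

theorem eval1 {n : ℕ} {G : Ed n → Bil (Ed n)} {y : Ed n} (h : DifferentiableAt ℝ G y) (w z u : Ed n) :
    fderiv ℝ (fun y => G y w z) y u = fderiv ℝ G y u w z := by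
  let L : Bil (Ed n) →L[ℝ] ℝ :=
    (ContinuousLinearMap.apply ℝ ℝ z).comp (ContinuousLinearMap.apply ℝ (Ed n →L[ℝ] ℝ) w)
  have hL : (fun y => G y w z) = fun y => L (G y) := rfl
  rw [hL]
  have h1 := (L.hasFDerivAt.comp y h.hasFDerivAt).fderiv
  have h2 : fderiv ℝ (fun y => L (G y)) y = L.comp (fderiv ℝ G y) := h1
  rw [h2]
  rfl

theorem dir_eq {n : ℕ} {G : Ed n → Bil (Ed n)} {x : Ed n} (hG : ContDiffAt ℝ ∞ G x) (w z v : Ed n) :
    dir (fun y => G y w z) v x = fderiv ℝ G x v w z :=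
  eval1 (hG.differentiableAt (by simp)) w z v

theorem dir_dir_eq {n : ℕ} {G : Ed n → Bil (Ed n)} {x : Ed n} (hG : ContDiffAt ℝ ∞ G x)
    (w z u v : Ed n) :
    dir (dir (fun y => G y w z) u) v x = fderiv ℝ (fderiv ℝ G) x v u w z := by
  have h2 : ContDiffAt ℝ 2 G x := by exact_mod_cast contDiffAt_infty.1 hG 2
  have hev : ∀ᶠ y in 𝓝 x, DifferentiableAt ℝ G y :=
    (h2.eventually (by simp)).mono (fun y hy => hy.differentiableAt (by norm_num))
  have h1 : dir (fun y => G y w z) u =ᶠ[𝓝 x] fun y => fderiv ℝ G y u w z := by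
    filter_upwards [hev] with y hy
    exact eval1 hy w z u
  have hd : DifferentiableAt ℝ (fderiv ℝ G) x := by
    have : ContDiffAt ℝ 1 (fderiv ℝ G) x := h2.fderiv_right (by norm_num)
    exact this.differentiableAt (by norm_num)
  let L : (Ed n →L[ℝ] Bil (Ed n)) →L[ℝ] ℝ :=
    ((ContinuousLinearMap.apply ℝ ℝ z).comp (ContinuousLinearMap.apply ℝ (Ed n →L[ℝ] ℝ) w)).comp
      (ContinuousLinearMap.apply ℝ (Bil (Ed n)) u)
  have hL : (fun y => fderiv ℝ G y u w z) = fun y => L (fderiv ℝ G y) := rfl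
  show fderiv ℝ (dir (fun y => G y w z) u) x v = _
  rw [h1.fderiv_eq, hL]
  have h3 := (L.hasFDerivAt.comp x hd.hasFDerivAt).fderiv
  have h4 : fderiv ℝ (fun y => L (fderiv ℝ G y)) x = L.comp (fderiv ℝ (fderiv ℝ G) x) := h3
  rw [h4]
  rfl

variable {n : ℕ} {E : Type} [TopologicalSpace E] [ChartedSpace (Ed n) E] [IsManifold (𝓡 n) ∞ E]

theorem coef_eq (g : Met (n := n) E) (ψ : Ed n → E) (y v w : Ed n) :
    coef (V := Ed n) g ψ y v w = pull g ψ y v w := rfl

theorem chris_iff (g : Met (n := n) E) (ψ : Ed n → E) (x : Ed n)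
    (hs : ContDiffAt ℝ ∞ (pull g ψ) x) (v w a : Ed n) :
    Chris (coef (V := Ed n) g ψ) x v w a ↔ IsChr (pull g ψ) x v w a := by
  unfold Chris IsChr chr
  refine forall_congr' fun z => ?_
  have h1 := dir_eq hs w z v
  have h2 := dir_eq hs v z w
  have h3 := dir_eq hs v w z
  constructor
  · intro h
    rw [← h1, ← h2, ← h3]
    exact h
  · intro h
    rw [← h1, ← h2, ← h3] at h
    exact h

theorem curv_eq (g : Met (n := n) E) (ψ : Ed n → E) (x : Ed n)
    (hs : ContDiffAt ℝ ∞ (pull g ψ) x) (v w a b c : Ed n) :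
    Curv (coef (V := Ed n) g ψ) x v w a b c = curv (pull g ψ) x v w a b c := by
  have h1 := dir_dir_eq hs w w v v
  have h2 := dir_dir_eq hs v v w w
  have h3 := dir_dir_eq hs v w w v
  unfold curv
  rw [← h1, ← h2, ← h3]
  rfl

theorem smooth_pull (g : Met (n := n) E) (ψ : Ed n → E) (x : Ed n) (h : Par ψ x) :
    ContDiffAt ℝ ∞ (pull g ψ) x :=
  pus n E g (Ed n) ψ x h.1.self_of_nhds

omit [IsManifold (𝓡 n) ∞ E] in
theorem chart_of_par {ψ : Ed n → E} {x : Ed n} (h : Par ψ x) : Chart (V := Ed n) ψ x := h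

theorem secPos_of (g : Met (n := n) E) (h : SecPositive (V := Ed n) g) : SecPos g := by
  intro ψ x hp v w a b c hli ha hb hc
  have hs := smooth_pull g ψ x hp
  have := h ψ x (chart_of_par hp) v w a b c hli ((chris_iff g ψ x hs v w a).2 ha)
    ((chris_iff g ψ x hs v v b).2 hb) ((chris_iff g ψ x hs w w c).2 hc)
  rwa [curv_eq g ψ x hs] at this

theorem secGeOne_of (g : Met (n := n) E) (h : SecAtLeastOne (V := Ed n) g) : SecGeOne g := by
  intro ψ x hp v w a b c ha hb hc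
  have hs := smooth_pull g ψ x hp
  have := h ψ x (chart_of_par hp) v w a b c ((chris_iff g ψ x hs v w a).2 ha)
    ((chris_iff g ψ x hs v v b).2 hb) ((chris_iff g ψ x hs w w c).2 hc)
  rwa [curv_eq g ψ x hs] at this

theorem conf_of (g : Met (n := n) E) (f : E → E) (h : Conformal (V := Ed n) g f) : Conf g f := h

theorem biLip_of (lam : ℝ) (g : Met (n := n) E) (f : E → E) (h : BiLipschitz (V := Ed n) lam g f) :
    BiLip lam g f := h

theorem covSmall_of (ε : ℝ) (g : Met (n := n) E) (f : E → E) (hf : ContMDiff (𝓡 n) (𝓡 n) ∞ f)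
    (h : C1Small (V := Ed n) ε g f) : CovSmall ε g f := by
  intro ψ x hp u v w a b ha hb
  have hs := smooth_pull g ψ x hp
  have hs' : ContDiffAt ℝ ∞ (pull g (f ∘ ψ)) x :=
    pus n E g (Ed n) (f ∘ ψ) x ((hf (ψ x)).comp x hp.1.self_of_nhds)
  have := h ψ x (chart_of_par hp) u v w a b ((chris_iff g ψ x hs u v a).2 ha)
    ((chris_iff g ψ x hs u w b).2 hb)
  have h1 := dir_eq hs' v w u
  have h2 : Cov (coef (V := Ed n) g (f ∘ ψ)) x u v w a b = cov (pull g (f ∘ ψ)) x u v w a b := by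
    unfold cov
    rw [← h1]
    rfl
  rw [h2] at this
  exact this

end Pool.Agent.CBG.H87
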